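import Pool.Agent.W425.GN.Defs

set_option autoImplicit false

/-! Project GN: the action on the powers of `f`. -/

namespace Pool.Agent.W436.GN

open MvPolynomial Pool.Agent.W425.GN

variable {n : ℕ} {R : Type} [CommRing R]

theorem dd_mon (β : Fin n → ℕ) (w : Fin n →₀ ℕ) :
    dd β (monomial w (1 : R)) =
      monomial (w - Finsupp.equivFunOnFinite.symm β) (∏ i, ((w i).descFactorial (β i) : R)) := by
  have h := (basisMonomials (Fin n) R).constr_basis R
    (fun w : Fin n →₀ ℕ => monomial (w - Finsupp.equivFunOnFinite.symm β)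
      (∏ i, ((w i).descFactorial (β i) : R))) w
  rw [coe_basisMonomials] at h
  exact h

theorem dd_zero (φ : MvPolynomial (Fin n) R) : dd (0 : Fin n → ℕ) φ = φ := by
  have h : dd (R := R) (0 : Fin n → ℕ) = LinearMap.id := by
    refine (basisMonomials (Fin n) R).ext fun w => ?_
    rw [coe_basisMonomials]
    show dd (0 : Fin n → ℕ) (monomial w (1 : R)) = monomial w 1
    rw [dd_mon]
    have h1 : Finsupp.equivFunOnFinite.symm (0 : Fin n → ℕ) = 0 := by
      ext i; simp
    rw [h1, tsub_zero]
    simp
  rw [h]; rfl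

theorem pderiv_dd (i : Fin n) (β : Fin n → ℕ) (φ : MvPolynomial (Fin n) R) :
    pderiv i (dd β φ) = dd (β + Pi.single i 1) φ := by
  have h : (pderiv i).toLinearMap ∘ₗ dd (R := R) β = dd (β + Pi.single i 1) := by
    refine (basisMonomials (Fin n) R).ext fun w => ?_
    rw [coe_basisMonomials]
    show pderiv i (dd β (monomial w (1 : R))) = dd (β + Pi.single i 1) (monomial w 1)
    rw [dd_mon, dd_mon, pderiv_monomial]
    have h1 : Finsupp.equivFunOnFinite.symm (β + Pi.single i 1) =
        Finsupp.equivFunOnFinite.symm β + Finsupp.single i 1 := by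
      ext k
      by_cases hk : k = i
      · subst hk; simp
      · simp [hk]
    rw [h1, tsub_add_eq_tsub_tsub]
    congr 1
    have h2 : ∀ k : Fin n, (((w k).descFactorial ((β + Pi.single i 1 : Fin n → ℕ) k) : ℕ) : R) =
        (((w k).descFactorial (β k) : ℕ) : R) * (if k = i then ((w i - β i : ℕ) : R) else 1) := by
      intro k
      by_cases hk : k = i
      · subst hk
        simp only [Pi.add_apply, Pi.single_eq_same, if_true, Nat.descFactorial_succ]
        rw [mul_comm]
        push_cast
        ring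
      · simp [hk]
    simp only [h2]
    rw [Finset.prod_mul_distrib, Finset.prod_ite_eq']
    simp
  exact congrArg (fun L : MvPolynomial (Fin n) R →ₗ[R] MvPolynomial (Fin n) R => L φ) h

theorem act_monomial (m : Sy n →₀ ℕ) (c : R) (s : ℕ) (φ : MvPolynomial (Fin n) R) :
    act (monomial m c) s φ = C c * (((s : MvPolynomial (Fin n) R)) ^ m none *
      ((∏ i, X i ^ m (some (Sum.inl i))) * dd (fun i => m (some (Sum.inr i))) φ)) := by
  have h := (basisMonomials (Sy n) R).constr_basis R
    (fun m : Sy n →₀ ℕ => ((s : R) ^ m none) • ((∏ i, X i ^ m (some (Sum.inl i))) *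
      dd (fun i => m (some (Sum.inr i))) φ)) m
  rw [coe_basisMonomials] at h
  have h1 : (monomial m c : MvPolynomial (Sy n) R) = c • monomial m 1 := by
    rw [smul_monomial, smul_eq_mul, mul_one]
  unfold act
  rw [h1, map_smul]
  have h2 : actL s φ (monomial m (1 : R)) = ((s : R) ^ m none) •
      ((∏ i, X i ^ m (some (Sum.inl i))) * dd (fun i => m (some (Sum.inr i))) φ) := h
  rw [h2, smul_eq_C_mul, smul_eq_C_mul, C_pow]
  simp

/-- the derivatives of the values -/
theorem pderiv_eval (i : Fin n) (w : Polynomial (MvPolynomial (Fin n) R)) :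
    ∃ w' : Polynomial (MvPolynomial (Fin n) R), ∀ s : ℕ,
      pderiv i (w.eval (s : MvPolynomial (Fin n) R)) = w'.eval (s : MvPolynomial (Fin n) R) := by
  induction w using Polynomial.induction_on' with
  | add p q hp hq =>
    obtain ⟨p', hp'⟩ := hp
    obtain ⟨q', hq'⟩ := hq
    exact ⟨p' + q', fun s => by rw [Polynomial.eval_add, map_add, hp', hq', Polynomial.eval_add]⟩
  | monomial k a =>
    refine ⟨Polynomial.monomial k (pderiv i a), fun s => ?_⟩
    rw [Polynomial.eval_monomial, Polynomial.eval_monomial, Derivation.leibniz]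
    have h1 : pderiv i ((s : MvPolynomial (Fin n) R) ^ k) = 0 := by
      rw [← Nat.cast_pow, Derivation.map_natCast]
    rw [h1, smul_zero, zero_add, smul_eq_mul, mul_comm]

theorem mul_pderiv_pow (i : Fin n) (f : MvPolynomial (Fin n) R) (s : ℕ) :
    f * pderiv i (f ^ s) = (s : MvPolynomial (Fin n) R) * f ^ s * pderiv i f := by
  rw [Derivation.leibniz_pow]
  rcases s with _ | s
  · simp
  · rw [Nat.succ_sub_one, pow_succ, nsmul_eq_mul, smul_eq_mul]
    ring

theorem dd_pow (f : MvPolynomial (Fin n) R) : ∀ (N : ℕ) (β : Fin n → ℕ), ∑ i, β i = N →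
    ∃ (d : ℕ) (w : Polynomial (MvPolynomial (Fin n) R)), ∀ s : ℕ,
      f ^ d * dd β (f ^ s) = w.eval (s : MvPolynomial (Fin n) R) * f ^ s := by
  intro N
  induction N with
  | zero =>
    intro β hβ
    have h0 : β = 0 := by
      funext i
      exact (Finset.sum_eq_zero_iff.1 hβ) i (Finset.mem_univ i)
    refine ⟨0, 1, fun s => ?_⟩
    rw [h0, dd_zero, pow_zero, Polynomial.eval_one]
  | succ N ih =>
    intro β hβ
    obtain ⟨i, hi⟩ : ∃ i, 0 < β i := by
      by_contra hcon
      push Not at hcon
      have : ∑ i, β i = 0 := Finset.sum_eq_zero fun i _ => Nat.le_zero.1 (hcon i)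
      omega
    obtain ⟨β', hβ'⟩ : ∃ β' : Fin n → ℕ, β = β' + Pi.single i 1 := by
      refine ⟨β - Pi.single i 1, ?_⟩
      funext k
      by_cases hk : k = i
      · subst hk
        simp only [Pi.add_apply, Pi.sub_apply, Pi.single_eq_same]
        omega
      · simp [hk]
    have hs : ∑ i, β' i = N := by
      rw [hβ'] at hβ
      simp only [Pi.add_apply, Finset.sum_add_distrib] at hβ
      have : ∑ k, (Pi.single i 1 : Fin n → ℕ) k = 1 := by
        simp [Pi.single_apply]
      omega
    obtain ⟨d, w, hw⟩ := ih β' hs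
    obtain ⟨w', hw'⟩ := pderiv_eval i w
    refine ⟨d + 1, Polynomial.C f * w' + Polynomial.X * w * Polynomial.C (pderiv i f) -
      Polynomial.C ((d : MvPolynomial (Fin n) R) * pderiv i f) * w, fun s => ?_⟩
    rw [hβ', ← pderiv_dd]
    have h1 := congrArg (pderiv i) (hw s)
    rw [Derivation.leibniz, Derivation.leibniz, hw', smul_eq_mul, smul_eq_mul, smul_eq_mul,
      smul_eq_mul] at h1
    have h2 := mul_pderiv_pow i f d
    have h3 := mul_pderiv_pow i f s
    have h4 := hw s
    simp only [Polynomial.eval_add, Polynomial.eval_sub, Polynomial.eval_mul, Polynomial.eval_C,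
      Polynomial.eval_X]
    linear_combination f * h1 - dd β' (f ^ s) * h2 + w.eval (s : MvPolynomial (Fin n) R) * h3 -
      (d : MvPolynomial (Fin n) R) * pderiv i f * h4

theorem a4 : TaskA4 := by
  intro n R _ f P
  induction P using MvPolynomial.induction_on' with
  | monomial m c =>
    obtain ⟨d, w, hw⟩ := dd_pow f _ (fun i => m (some (Sum.inr i))) rfl
    refine ⟨d, Polynomial.C (C c) * (Polynomial.X ^ m none *
      (Polynomial.C (∏ i, X i ^ m (some (Sum.inl i))) * w)), fun s => ?_⟩
    rw [act_monomial]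
    simp only [Polynomial.eval_mul, Polynomial.eval_C, Polynomial.eval_X, Polynomial.eval_pow]
    have h1 := hw s
    linear_combination C c * (((s : MvPolynomial (Fin n) R)) ^ m none *
      (∏ i, X i ^ m (some (Sum.inl i)))) * h1
  | add P Q hP hQ =>
    obtain ⟨d1, w1, h1⟩ := hP
    obtain ⟨d2, w2, h2⟩ := hQ
    refine ⟨d1 + d2, Polynomial.C (f ^ d2) * w1 + Polynomial.C (f ^ d1) * w2, fun s => ?_⟩
    have h3 : act (P + Q) s (f ^ s) = act P s (f ^ s) + act Q s (f ^ s) := by
      unfold act; rw [map_add]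
    rw [h3]
    simp only [Polynomial.eval_add, Polynomial.eval_mul, Polynomial.eval_C]
    have h4 := h1 s
    have h5 := h2 s
    rw [pow_add]
    linear_combination f ^ d2 * h4 + f ^ d1 * h5

end Pool.Agent.W436.GN
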